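import Mathlib
import Pool.Agent.N385.ST.Free

/-!
# The number of branching points in a smaller concentric ball is bounded (finite terminal sets)

For all `d ≥ 2` and `t < 1` there is a bound, valid for all finite terminal sets, for the number of the
branching points in `B_{tr}(x)` of a Steiner tree without terminals in `B_r(x)`.
-/

set_option autoImplicit false

open MeasureTheory Pool.Agent.N385.ST

namespace Pool.Agent.Results.MP_665203_co.FiniteBranching

/-- `K` is a Steiner tree for `A`: a connected Steiner set, that is, a closed set of minimal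
one-dimensional Hausdorff measure among the closed sets `S` with `S ∪ A` connected -/
def IsSteiner {d : ℕ} (A K : Set (EuclideanSpace ℝ (Fin d))) : Prop :=
  IsConnected K ∧ IsClosed K ∧ IsConnected (K ∪ A) ∧
    ∀ S : Set (EuclideanSpace ℝ (Fin d)), IsClosed S → IsConnected (S ∪ A) → μH[1] K ≤ μH[1] S

/-- the straight-line drawing of the tree `G` with the vertices `p v` is a Steiner tree for `A`; the
vertices are the terminals and branching points -/
structure Drawn {d n : ℕ} (A : Set (EuclideanSpace ℝ (Fin d))) (G : SimpleGraph (Fin n))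
    (p : Fin n → EuclideanSpace ℝ (Fin d)) : Prop where
  tree : G.IsTree
  inj : Function.Injective p
  terminals : A ⊆ Set.range p
  branching : ∀ v, p v ∉ A → 3 ≤ (G.neighborSet v).ncard
  emb : ∀ a b a' b', G.Adj a b → G.Adj a' b' → s(a, b) ≠ s(a', b') →
    segment ℝ (p a) (p b) ∩ segment ℝ (p a') (p b') ⊆ {p a, p b} ∩ {p a', p b'}
  steiner : IsSteiner A (⋃ (a) (b) (_ : G.Adj a b), segment ℝ (p a) (p b))

/-- the supremum of the number of branching points in `B_{tr}(x)` over all finite sets `A`, all
Steiner trees for `A` and all balls `B_r(x)` without points of `A` -/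
noncomputable def Nfin (d : ℕ) (t : ℝ) : ℕ∞ :=
  sSup {N | ∃ (A : Set (EuclideanSpace ℝ (Fin d))) (n : ℕ) (G : SimpleGraph (Fin n))
    (p : Fin n → EuclideanSpace ℝ (Fin d)) (x : EuclideanSpace ℝ (Fin d)) (r : ℝ),
    A.Finite ∧ Drawn A G p ∧ 0 < r ∧ A ∩ Metric.ball x r = ∅ ∧
      N = {v | p v ∉ A ∧ p v ∈ Metric.ball x (t * r)}.encard}

/-- **The number of branching points in a smaller concentric ball is bounded.** -/
theorem result : ∀ d : ℕ, 2 ≤ d → ∀ t : ℝ, 0 < t → t < 1 → Nfin d t < ⊤ := by
  classical
  intro d hd t _ ht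
  obtain ⟨B, hB⟩ := bound_ball (d := d) (by omega) t ht
  have h : Nfin d t ≤ (B : ℕ∞) := by
    refine sSup_le ?_
    rintro N ⟨A, n, G, p, x, r, -, hD, hr, hA, rfl⟩
    have h1 := hB (Fin n) G p x r hr hD.inj hD.tree.isAcyclic
      (ex_of_min hD.tree hD.terminals hD.steiner.1 (fun K hAK hK hK2 =>
        hD.steiner.2.2.2 K hK.isClosed (by rwa [Set.union_eq_self_of_subset_right hAK])) hD.emb) (by
        intro v hv
        refine hD.branching v fun hv2 => ?_
        have h3 : p v ∈ A ∩ Metric.ball x r := ⟨hv2, hv⟩
        rw [hA] at h3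
        exact h3)
    have h2 : {v | p v ∉ A ∧ p v ∈ Metric.ball x (t * r)} ⊆
        ((Finset.univ.filter fun v => dist (p v) x < t * r : Finset (Fin n)) : Set (Fin n)) := by
      rintro v ⟨-, hv⟩
      rw [Finset.mem_coe, Finset.mem_filter]
      exact ⟨Finset.mem_univ _, hv⟩
    refine (Set.encard_le_encard h2).trans ?_
    rw [Set.encard_coe_eq_coe_finsetCard]
    exact_mod_cast h1
  exact h.trans_lt (ENat.natCast_lt_top B)

end Pool.Agent.Results.MP_665203_co.FiniteBranching
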